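import Pool.Agent.U670.WP.Code

set_option autoImplicit false
set_option linter.unusedSectionVars false

/-!
# The group of the code
-/

namespace Pool.Agent.U670.WP

open SemidirectProduct Pool.Agent.Q223.IS Pool.Agent.Q32.DP Pool.Agent.U181.IP
  Pool.Agent.U181.IP.FinT Pool.Agent.Q32.DP.PROD2

/-- the tables of a finite group and its action -/
def Act (t s : ℕ × ℕ) (Q X : Type) [Group Q] [MulAction Q X] : Prop :=
  ∃ (e : Q ≃ Fin t.1) (u : X ≃ Fin s.1), (∀ x y, (e (x * y) : ℕ) = ml t (e x) (e y)) ∧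
    ∀ q x, (u (q • x) : ℕ) = ml s (e q) (u x)

theorem comm_gen {k : Pres} {M : Type} [Group M] (F : PG k →* M) (z : M)
    (h : ∀ j, Commute (F (gen k j)) z) (a : PG k) : Commute (F a) z := by
  have h1 : (MulAut.conj z).toMonoidHom.comp F = F := by
    apply PG_ext
    intro j
    show z * F (gen k j) * z⁻¹ = F (gen k j)
    rw [← (h j).eq, mul_inv_cancel_right]
  have h2 : z * F a * z⁻¹ = F a := DFunLike.congr_fun h1 a
  show F a * z = z * F a
  rw [mul_inv_eq_iff_eq_mul] at h2
  exact h2.symm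

theorem div_lt {n m M : ℕ} (h : n < M * m) : n / m < M :=
  Nat.div_lt_of_lt_mul (by rw [mul_comm]; exact h)

section

variable {k : Pres} {t s : ℕ × ℕ} {Q X : Type} [Group Q] [MulAction Q X] [DecidableEq X]

/-- the generators in the wreath product -/
noncomputable def bb (k : Pres) {t s : ℕ × ℕ} (e : Q ≃ Fin t.1) (u : X ≃ Fin s.1) (n : ℕ) :
    Wr (PG k) X Q :=
  if h : n < s.1 * k.1 then inl (Pi.mulSingle (u.symm ⟨n / k.1, div_lt h⟩) (gen k (n % k.1)))
  else if h : n - s.1 * k.1 < t.1 then inr (e.symm ⟨n - s.1 * k.1, h⟩) else 1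

theorem lt_Mm {x M m j : ℕ} (hx : x < M) (hj : j < m) : x * m + j < M * m := by
  calc x * m + j < x * m + m := by omega
    _ = (x + 1) * m := by ring
    _ ≤ M * m := Nat.mul_le_mul_right m hx

theorem b1 (e : Q ≃ Fin t.1) (u : X ≃ Fin s.1) (x : X) {j : ℕ} (hj : j < k.1) :
    bb k e u (u x * k.1 + j) = inl (Pi.mulSingle x (gen k j)) := by
  have hlt := lt_Mm (u x).2 hj
  have h1 : (u x * k.1 + j) / k.1 = u x := by
    rw [mul_comm, Nat.mul_add_div (by omega), Nat.div_eq_of_lt hj, add_zero]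
  have h2 : (u x * k.1 + j) % k.1 = j := by
    rw [mul_comm, Nat.mul_add_mod, Nat.mod_eq_of_lt hj]
  unfold bb
  rw [dif_pos hlt]
  have h3 : ∀ h, u.symm ⟨(u x * k.1 + j) / k.1, h⟩ = x := by
    intro h
    rw [Equiv.symm_apply_eq]
    exact Fin.ext h1
  rw [h3, h2]

theorem b2 (e : Q ≃ Fin t.1) (u : X ≃ Fin s.1) (q : Q) :
    bb k e u (s.1 * k.1 + e q) = inr q := by
  unfold bb
  rw [dif_neg (by omega)]
  have h1 : s.1 * k.1 + (e q : ℕ) - s.1 * k.1 = e q := by omega
  rw [dif_pos (by rw [h1]; exact (e q).2)]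
  congr 1
  rw [Equiv.symm_apply_eq]
  exact Fin.ext h1

theorem b3 (e : Q ≃ Fin t.1) (u : X ≃ Fin s.1) {n : ℕ} (h : s.1 * k.1 + t.1 ≤ n) :
    bb k e u n = 1 := by
  unfold bb
  rw [dif_neg (by omega), dif_neg (by omega)]

theorem bsg (e : Q ≃ Fin t.1) (u : X ≃ Fin s.1) (x : X) (j : ℕ) :
    bb k e u (sg k.1 (s.1 * k.1 + t.1) (u x) j) = inl (Pi.mulSingle x (gen k j)) := by
  unfold sg
  by_cases hj : j < k.1
  · rw [if_pos hj, b1 e u x hj]
  · rw [if_neg hj, b3 e u (by omega), gen_big k (by omega), Pi.mulSingle_one, map_one]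

theorem code_iso [Finite X] (h : Act t s Q X) :
    Nonempty (PG (code k t s) ≃* Wr (PG k) X Q) := by
  classical
  obtain ⟨e, u, he, hu⟩ := h
  have : Fintype X := Fintype.ofFinite X
  have hX : ∀ x, x < s.1 → ∃ y : X, (u y : ℕ) = x := fun x hx =>
    ⟨u.symm ⟨x, hx⟩, by rw [u.apply_symm_apply]⟩
  have hQ : ∀ q, q < t.1 → ∃ r : Q, (e r : ℕ) = q := fun x hx =>
    ⟨e.symm ⟨x, hx⟩, by rw [e.apply_symm_apply]⟩
  obtain ⟨F, hF⟩ := PG_lift (code k t s) (bb k e u) (fun i hi => b3 e u hi) (by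
    intro w hw
    rcases mem_code.1 hw with ⟨x, hx, v, hv, rfl⟩ | ⟨x, hx, y, hy, i, hi, j, hj, rfl⟩ |
      ⟨v, hv, rfl⟩ | ⟨q, hq, x, hx, j, hj, rfl⟩
    · obtain ⟨x, rfl⟩ := hX x hx
      rw [ev_mp]
      have h1 : (fun i => bb k e u (sg k.1 (s.1 * k.1 + t.1) (u x) i)) = fun i =>
          ((inl : (X → PG k) →* Wr (PG k) X Q).comp (MonoidHom.mulSingle (fun _ => PG k) x))
            (gen k i) := funext fun i => bsg e u x i
      rw [h1, ← ev_map, PG_rel k hv, map_one]
    · by_cases hxy : x = y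
      · rw [if_pos hxy]
        exact ev_nil _
      · rw [if_neg hxy, ev_cmw, ev_true, ev_true]
        obtain ⟨x, rfl⟩ := hX x hx
        obtain ⟨y, rfl⟩ := hX y hy
        rw [b1 e u x hi, b1 e u y hj]
        exact (Pi.mulSingle_commute (fun h => hxy (by rw [h])) _ _).map inl
    · obtain ⟨i, j, hi, hj, rfl⟩ := mem_K.1 hv
      obtain ⟨a, rfl⟩ := hQ i hi
      obtain ⟨b, rfl⟩ := hQ j hj
      rw [ev_mp, FinT.ev_rel, ← he, b2, b2, b2, ← map_mul, mul_inv_cancel]
    · obtain ⟨x, rfl⟩ := hX x hx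
      obtain ⟨q, rfl⟩ := hQ q hq
      rw [ev_cons, ev_cons _ (u x * k.1 + j, true), ev_cons _ (s.1 * k.1 + e q, false), ev_true,
        ev_true, FinT.ev_false, FinT.ev_false, ← hu, b2, b1 e u x hj, b1 e u (q • x) hj,
        ← mul_assoc, conj_single]
      group)
  have hrel : ∀ x : X, ∀ w ∈ k.2, ev (fun j => gen (code k t s)
      (sg k.1 (s.1 * k.1 + t.1) (u x) j)) w = 1 := by
    intro x w hw
    rw [← ev_mp]
    exact PG_rel _ (mem_code.2 (Or.inl ⟨u x, (u x).2, w, hw, rfl⟩))
  have hbig : ∀ (x : X) (j : ℕ), k.1 ≤ j → gen (code k t s)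
      (sg k.1 (s.1 * k.1 + t.1) (u x) j) = 1 := by
    intro x j hj
    apply gen_big
    unfold sg
    rw [if_neg (by omega)]
    show s.1 * k.1 + t.1 ≤ _
    omega
  choose c hc using fun x : X => PG_lift k (fun j => gen (code k t s)
      (sg k.1 (s.1 * k.1 + t.1) (u x) j)) (hbig x) (hrel x)
  have hcomm : Pairwise fun x y : X => ∀ a b, Commute (c x a) (c y b) := by
    intro x y hxy a b
    apply comm_gen
    intro j
    apply Commute.symm
    apply comm_gen
    intro i
    rw [hc, hc]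
    by_cases hi : i < k.1
    · by_cases hj : j < k.1
      · have h1 := PG_rel (code k t s) (mem_code.2 (Or.inr (Or.inl ⟨u y, (u y).2, u x, (u x).2,
          i, hi, j, hj, rfl⟩)))
        rw [if_neg (fun h => hxy (u.injective (Fin.ext h)).symm), ev_cmw, ev_true, ev_true] at h1
        unfold sg
        rw [if_pos hi, if_pos hj]
        exact h1
      · rw [hbig x j (by omega)]
        exact Commute.one_right _
    · rw [hbig y i (by omega)]
      exact Commute.one_left _
  let f1 : (X → PG k) →* PG (code k t s) := MonoidHom.noncommPiCoprod c hcomm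
  have hf1 : ∀ x a, f1 (Pi.mulSingle x a) = c x a := fun x a =>
    MonoidHom.noncommPiCoprod_mulSingle (ϕ := c) x a
  let f2 : Q →* PG (code k t s) := MonoidHom.mk' (fun q => gen (code k t s) (s.1 * k.1 + e q)) (by
    intro q r
    have h1 := PG_rel (code k t s) (mem_code.2 (Or.inr (Or.inr (Or.inl
      ⟨_, mem_K.2 ⟨(e q : ℕ), (e r : ℕ), (e q).2, (e r).2, rfl⟩, rfl⟩))))
    rw [ev_mp, FinT.ev_rel, mul_inv_eq_one, ← he] at h1
    exact h1.symm)
  have hf2 : ∀ q, f2 q = gen (code k t s) (s.1 * k.1 + e q) := fun q => rfl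
  have hcq : ∀ q x a, c (q • x) a = f2 q * c x a * (f2 q)⁻¹ := by
    intro q x a
    have h1 : c (q • x) = (MulAut.conj (f2 q)).toMonoidHom.comp (c x) := by
      apply PG_ext
      intro j
      show _ = f2 q * c x (gen k j) * (f2 q)⁻¹
      rw [hc, hc]
      by_cases hj : j < k.1
      · have h1 := PG_rel (code k t s) (mem_code.2 (Or.inr (Or.inr (Or.inr
          ⟨(e q : ℕ), (e q).2, (u x : ℕ), (u x).2, j, hj, rfl⟩))))
        rw [ev_cons, ev_cons _ (u x * k.1 + j, true), ev_cons _ (s.1 * k.1 + e q, false), ev_true,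
          ev_true, FinT.ev_false, FinT.ev_false, ← hu, ← mul_assoc, ← mul_assoc,
          mul_inv_eq_one] at h1
        unfold sg
        rw [if_pos hj, if_pos hj]
        exact h1.symm
      · rw [hbig _ j (by omega), hbig _ j (by omega), mul_one, mul_inv_cancel]
    exact DFunLike.congr_fun h1 a
  let P : Wr (PG k) X Q →* PG (code k t s) := SemidirectProduct.lift f1 f2 (by
    intro q
    apply MonoidHom.pi_ext
    intro x a
    show f1 ((mulAutArrow q : MulAut (X → PG k)) (Pi.mulSingle x a)) =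
      f2 q * f1 (Pi.mulSingle x a) * (f2 q)⁻¹
    rw [act_single, hf1, hf1, hcq])
  have hP1 : ∀ x a, P (inl (Pi.mulSingle x a)) = c x a := by
    intro x a
    show SemidirectProduct.lift f1 f2 _ (inl (Pi.mulSingle x a)) = c x a
    rw [lift_inl, hf1]
  have hP2 : ∀ q, P (inr q) = gen (code k t s) (s.1 * k.1 + e q) := by
    intro q
    show SemidirectProduct.lift f1 f2 _ (inr q) = _
    rw [lift_inr, hf2]
  refine ⟨MonoidHom.toMulEquiv F P ?_ ?_⟩
  · apply PG_ext
    intro n
    rw [MonoidHom.comp_apply, hF]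
    show P (bb k e u n) = gen (code k t s) n
    by_cases h1 : n < s.1 * k.1
    · have hm : 0 < k.1 := by
        rcases Nat.eq_zero_or_pos k.1 with h0 | h0
        · rw [h0] at h1
          omega
        · exact h0
      unfold bb
      rw [dif_pos h1, hP1, hc, u.apply_symm_apply]
      unfold sg
      rw [if_pos (Nat.mod_lt _ hm)]
      congr 1
      show n / k.1 * k.1 + n % k.1 = n
      exact Nat.div_add_mod' n k.1
    · by_cases h2 : n - s.1 * k.1 < t.1
      · unfold bb
        rw [dif_neg h1, dif_pos h2, hP2, e.apply_symm_apply]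
        congr 1
        show s.1 * k.1 + (n - s.1 * k.1) = n
        omega
      · rw [b3 e u (by omega), map_one]
        exact (gen_big _ (show s.1 * k.1 + t.1 ≤ n by omega)).symm
  · apply SemidirectProduct.hom_ext
    · apply MonoidHom.pi_ext
      intro x a
      show F (P (inl (Pi.mulSingle x a))) = inl (Pi.mulSingle x a)
      rw [hP1]
      have h1 : F.comp (c x) = (inl : (X → PG k) →* Wr (PG k) X Q).comp
          (MonoidHom.mulSingle (fun _ => PG k) x) := by
        apply PG_ext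
        intro j
        show F (c x (gen k j)) = inl (Pi.mulSingle x (gen k j))
        rw [hc, hF, bsg]
      exact DFunLike.congr_fun h1 a
    · ext q : 1
      show F (P (inr q)) = inr q
      rw [hP2, hF, b2]

end

end Pool.Agent.U670.WP
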