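import Pool.Agent.U670.WP.Iso

set_option autoImplicit false
set_option linter.unusedSectionVars false

/-!
# Tables of faithful actions of finite groups
-/

namespace Pool.Agent.U670.WP

open SemidirectProduct Pool.Agent.Q223.IS Pool.Agent.Q32.DP Pool.Agent.U181.IP
  Pool.Agent.U181.IP.FinT Pool.Agent.U181.IP.FinC Pool.Agent.Helper926 Pool.Agent.Helper926.RE

theorem exists_act (Q X : Type) [Group Q] [MulAction Q X] [Finite Q] [Finite X] :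
    ∃ t s, Act t s Q X := by
  obtain ⟨t, e, he⟩ := exists_tab Q
  let M := Nat.card X
  let u : X ≃ Fin M := Finite.equivFin X
  have hd : ∀ k, k < t.1 * M → k / M < t.1 := fun k hk =>
    Nat.div_lt_of_lt_mul (by rw [mul_comm]; exact hk)
  have hm : ∀ k, k < t.1 * M → k % M < M := by
    intro k hk
    apply Nat.mod_lt
    rcases Nat.eq_zero_or_pos M with h | h
    · rw [h] at hk
      omega
    · exact h
  let F : Fin (t.1 * M) → Fin M := fun k =>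
    u (e.symm ⟨k / M, hd k k.2⟩ • u.symm ⟨k % M, hm k k.2⟩)
  refine ⟨t, (M, (finFunctionFinEquiv F : ℕ)), e, u, he, fun q x => ?_⟩
  have hlt : (e q : ℕ) * M + (u x : ℕ) < t.1 * M := lt_Mm (e q).2 (u x).2
  show _ = dg M (finFunctionFinEquiv F) ((e q : ℕ) * M + (u x : ℕ))
  rw [dg_fun F _ hlt]
  show _ = ((u (e.symm ⟨((e q : ℕ) * M + (u x : ℕ)) / M, _⟩ •
    u.symm ⟨((e q : ℕ) * M + (u x : ℕ)) % M, _⟩) : Fin M) : ℕ)
  have hM : 0 < M := lt_of_le_of_lt (Nat.zero_le _) (u x).2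
  have e1 : ((e q : ℕ) * M + (u x : ℕ)) / M = e q := by
    rw [mul_comm, Nat.mul_add_div hM, Nat.div_eq_of_lt (u x).2, add_zero]
  have e2 : ((e q : ℕ) * M + (u x : ℕ)) % M = u x := by
    rw [mul_comm, Nat.mul_add_mod, Nat.mod_eq_of_lt (u x).2]
  have f1 : ∀ h, e.symm ⟨((e q : ℕ) * M + (u x : ℕ)) / M, h⟩ = q := by
    intro h
    rw [Equiv.symm_apply_eq]
    exact Fin.ext e1
  have f2 : ∀ h, u.symm ⟨((e q : ℕ) * M + (u x : ℕ)) % M, h⟩ = x := by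
    intro h
    rw [Equiv.symm_apply_eq]
    exact Fin.ext e2
  rw [f1, f2]

/-- the axioms of a faithful action -/
def VA (t s : ℕ × ℕ) : Prop := 0 < s.1 ∧
  (∀ i < t.1, ∀ j < t.1, ∀ x < s.1, ml s (ml t i j) x = ml s i (ml s j x)) ∧
  (∀ i < t.1, ml t i i = i → ∀ x < s.1, ml s i x = x) ∧
  ∀ i < t.1, ∀ j < t.1, (∀ x < s.1, ml s i x = ml s j x) → i = j

theorem va_of {t s : ℕ × ℕ} {Q X : Type} [Group Q] [MulAction Q X] [Nonempty X] [FaithfulSMul Q X]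
    (h : Act t s Q X) : VA t s := by
  obtain ⟨e, u, he, hu⟩ := h
  have hs : ∀ i, i < t.1 → ∃ g, (e g : ℕ) = i := fun i hi =>
    ⟨e.symm ⟨i, hi⟩, by rw [e.apply_symm_apply]⟩
  have ht : ∀ i, i < s.1 → ∃ g, (u g : ℕ) = i := fun i hi =>
    ⟨u.symm ⟨i, hi⟩, by rw [u.apply_symm_apply]⟩
  refine ⟨?_, ?_, ?_, ?_⟩
  · obtain ⟨x⟩ := (inferInstance : Nonempty X)
    exact lt_of_le_of_lt (Nat.zero_le _) (u x).2
  · intro i hi j hj x hx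
    obtain ⟨i, rfl⟩ := hs i hi
    obtain ⟨j, rfl⟩ := hs j hj
    obtain ⟨x, rfl⟩ := ht x hx
    rw [← he, ← hu, ← hu, ← hu, mul_smul]
  · intro i hi hii x hx
    obtain ⟨i, rfl⟩ := hs i hi
    obtain ⟨x, rfl⟩ := ht x hx
    rw [← he] at hii
    have h1 : i = 1 := mul_eq_left.1 (e.injective (Fin.ext hii))
    rw [← hu, h1, one_smul]
  · intro i hi j hj h
    obtain ⟨i, rfl⟩ := hs i hi
    obtain ⟨j, rfl⟩ := hs j hj
    have h1 : i = j := by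
      apply FaithfulSMul.eq_of_smul_eq_smul (α := X)
      intro x
      apply u.injective
      apply Fin.ext
      rw [hu, hu]
      exact h _ (u x).2
    rw [h1]

theorem act_of {t s : ℕ × ℕ} (h : Valid t) (h' : VA t s) :
    ∃ (Q X : Type) (_ : Group Q) (_ : MulAction Q X), Finite Q ∧ Finite X ∧ Nonempty X ∧
      FaithfulSMul Q X ∧ Act t s Q X := by
  obtain ⟨Q, iQ, e, he⟩ := tab_of h
  obtain ⟨h0, h1, h2, h3⟩ := h'
  have hlt : ∀ i x, ml s i x < s.1 := fun i x => Nat.mod_lt _ h0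
  let _ : MulAction Q (Fin s.1) :=
    { smul := fun q x => ⟨ml s (e q) x, hlt _ _⟩
      one_smul := fun x => Fin.ext (h2 _ (e 1).2 (by rw [← he, one_mul]) _ x.2)
      mul_smul := fun q r x => Fin.ext (by
        show ml s (e (q * r)) x = ml s (e q) (ml s (e r) x)
        rw [he]
        exact h1 _ (e q).2 _ (e r).2 _ x.2) }
  refine ⟨Q, Fin s.1, iQ, inferInstance, Finite.of_equiv _ e.symm, inferInstance, ⟨⟨0, h0⟩⟩,
    ⟨fun {q r} hqr => ?_⟩, e, Equiv.refl _, he, fun q x => rfl⟩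
  apply e.injective
  apply Fin.ext
  apply h3 _ (e q).2 _ (e r).2
  intro x hx
  exact congrArg Fin.val (hqr ⟨x, hx⟩)

/-- isomorphism of tables of actions -/
def IsoA (a b : (ℕ × ℕ) × (ℕ × ℕ)) : Prop := a.1.1 = b.1.1 ∧ a.2.1 = b.2.1 ∧
  ∃ c, c < a.1.1 ^ a.1.1 ∧ ∃ d, d < a.2.1 ^ a.2.1 ∧
    (∀ i < a.1.1, ∀ j < a.1.1, dg a.1.1 c i = dg a.1.1 c j → i = j) ∧
    (∀ i < a.2.1, ∀ j < a.2.1, dg a.2.1 d i = dg a.2.1 d j → i = j) ∧
    ∀ i < a.1.1, ∀ x < a.2.1, dg a.2.1 d (ml a.2 i x) = ml b.2 (dg a.1.1 c i) (dg a.2.1 d x)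

theorem dig_eq {A B : Type} {m m' : ℕ} (e : A ≃ Fin m) (e' : B ≃ Fin m') (θ : A ≃ B)
    (hm : m = m') : ∃ c, c < m ^ m ∧ (∀ a, dg m c (e a) = e' (θ a)) := by
  subst hm
  let F : Fin m → Fin m := fun i => e' (θ (e.symm i))
  refine ⟨(finFunctionFinEquiv F : ℕ), (finFunctionFinEquiv F).2, fun a => ?_⟩
  rw [dg_fun F _ (e a).2]
  show ((e' (θ (e.symm (e a))) : Fin m) : ℕ) = _
  rw [e.symm_apply_apply]

theorem dig_of {A B : Type} {m m' : ℕ} (e : A ≃ Fin m) (e' : B ≃ Fin m') (hm : m = m')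
    (h0 : 0 < m) (c : ℕ) (h : ∀ i < m, ∀ j < m, dg m c i = dg m c j → i = j) :
    ∃ θ : A ≃ B, ∀ a, (e' (θ a) : ℕ) = dg m c (e a) := by
  subst hm
  have hlt : ∀ i, dg m c i < m := fun i => Nat.mod_lt _ h0
  let f : A → B := fun a => e'.symm ⟨dg m c (e a), hlt _⟩
  have hf : Function.Injective f := by
    intro a b hab
    have h1 := congrArg Fin.val (e'.symm.injective hab)
    exact e.injective (Fin.ext (h _ (e a).2 _ (e b).2 h1))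
  have : Finite B := Finite.of_equiv _ e'.symm
  have hc : Nat.card B ≤ Nat.card A := by
    rw [Nat.card_congr e', Nat.card_congr e]
  refine ⟨Equiv.ofBijective f (hf.bijective_of_nat_card_le hc), fun a => ?_⟩
  show ((e' (e'.symm ⟨dg m c (e a), hlt _⟩) : Fin m) : ℕ) = _
  rw [e'.apply_symm_apply]

theorem isoA_iff {t s t' s' : ℕ × ℕ} {Q X R Y : Type} [Group Q] [MulAction Q X] [Nonempty X]
    [Group R] [MulAction R Y] (h : Act t s Q X) (h' : Act t' s' R Y) :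
    PIso Q X R Y ↔ IsoA (t, s) (t', s') := by
  obtain ⟨e, u, he, hu⟩ := h
  obtain ⟨e', u', he', hu'⟩ := h'
  have hs : ∀ i, i < t.1 → ∃ g, (e g : ℕ) = i := fun i hi =>
    ⟨e.symm ⟨i, hi⟩, by rw [e.apply_symm_apply]⟩
  have ht : ∀ i, i < s.1 → ∃ g, (u g : ℕ) = i := fun i hi =>
    ⟨u.symm ⟨i, hi⟩, by rw [u.apply_symm_apply]⟩
  constructor
  · rintro ⟨θ, σ, hθ⟩
    have h1 : t.1 = t'.1 := Fin.equiv_iff_eq.1 ⟨(e.symm.trans θ).trans e'⟩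
    have h2 : s.1 = s'.1 := Fin.equiv_iff_eq.1 ⟨(u.symm.trans σ).trans u'⟩
    obtain ⟨c, hc, hc'⟩ := dig_eq e e' θ h1
    obtain ⟨d, hd, hd'⟩ := dig_eq u u' σ h2
    refine ⟨h1, h2, c, hc, d, hd, ?_, ?_, ?_⟩
    · intro i hi j hj hij
      obtain ⟨i, rfl⟩ := hs i hi
      obtain ⟨j, rfl⟩ := hs j hj
      have h3 : dg t.1 c (e i) = dg t.1 c (e j) := hij
      rw [hc', hc'] at h3
      rw [θ.injective (e'.injective (Fin.ext h3))]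
    · intro i hi j hj hij
      obtain ⟨i, rfl⟩ := ht i hi
      obtain ⟨j, rfl⟩ := ht j hj
      have h3 : dg s.1 d (u i) = dg s.1 d (u j) := hij
      rw [hd', hd'] at h3
      rw [σ.injective (u'.injective (Fin.ext h3))]
    · intro i hi x hx
      obtain ⟨i, rfl⟩ := hs i hi
      obtain ⟨x, rfl⟩ := ht x hx
      show dg s.1 d (ml s (e i) (u x)) = ml s' (dg t.1 c (e i)) (dg s.1 d (u x))
      rw [← hu, hd', hd', hc', hθ, hu']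
  · rintro ⟨h1, h2, c, -, d, -, h3, h4, h5⟩
    have h0 : 0 < t.1 := lt_of_le_of_lt (Nat.zero_le _) (e 1).2
    have h0' : 0 < s.1 := by
      obtain ⟨x⟩ := (inferInstance : Nonempty X)
      exact lt_of_le_of_lt (Nat.zero_le _) (u x).2
    obtain ⟨θ, hθ⟩ := dig_of e e' h1 h0 c h3
    obtain ⟨σ, hσ⟩ := dig_of u u' h2 h0' d h4
    refine ⟨θ, σ, fun q x => ?_⟩
    apply u'.injective
    apply Fin.ext
    rw [hσ, hu', hu, hθ, hσ]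
    exact h5 _ (e q).2 _ (u x).2

theorem va_cp : ComputablePred fun z : (ℕ × ℕ) × (ℕ × ℕ) => VA z.1 z.2 := by
  unfold VA
  refine cp_and (cp_lt (by fun_prop) (by fun_prop)) (cp_and ?_ (cp_and ?_ ?_))
  · refine cp_all_lt (p := fun (z : (ℕ × ℕ) × (ℕ × ℕ)) i => ∀ j < z.1.1, ∀ x < z.2.1,
      ml z.2 (ml z.1 i j) x = ml z.2 i (ml z.2 j x)) ?_ (by fun_prop)
    refine cp_all_lt (p := fun (y : ((ℕ × ℕ) × (ℕ × ℕ)) × ℕ) j => ∀ x < y.1.2.1,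
      ml y.1.2 (ml y.1.1 y.2 j) x = ml y.1.2 y.2 (ml y.1.2 j x)) ?_ (by fun_prop)
    refine cp_all_lt (p := fun (y : (((ℕ × ℕ) × (ℕ × ℕ)) × ℕ) × ℕ) x =>
      ml y.1.1.2 (ml y.1.1.1 y.1.2 y.2) x = ml y.1.1.2 y.1.2 (ml y.1.1.2 y.2 x)) ?_ (by fun_prop)
    exact cp_eq (by fun_prop) (by fun_prop)
  · refine cp_all_lt (p := fun (z : (ℕ × ℕ) × (ℕ × ℕ)) i => ml z.1 i i = i →
      ∀ x < z.2.1, ml z.2 i x = x) ?_ (by fun_prop)
    refine cp_imp (cp_eq (by fun_prop) (by fun_prop)) ?_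
    refine cp_all_lt (p := fun (y : ((ℕ × ℕ) × (ℕ × ℕ)) × ℕ) x => ml y.1.2 y.2 x = x) ?_
      (by fun_prop)
    exact cp_eq (by fun_prop) (by fun_prop)
  · refine cp_all_lt (p := fun (z : (ℕ × ℕ) × (ℕ × ℕ)) i => ∀ j < z.1.1,
      (∀ x < z.2.1, ml z.2 i x = ml z.2 j x) → i = j) ?_ (by fun_prop)
    refine cp_all_lt (p := fun (y : ((ℕ × ℕ) × (ℕ × ℕ)) × ℕ) j =>
      (∀ x < y.1.2.1, ml y.1.2 y.2 x = ml y.1.2 j x) → y.2 = j) ?_ (by fun_prop)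
    refine cp_imp ?_ (cp_eq (by fun_prop) (by fun_prop))
    refine cp_all_lt (p := fun (y : (((ℕ × ℕ) × (ℕ × ℕ)) × ℕ) × ℕ) x =>
      ml y.1.1.2 y.1.2 x = ml y.1.1.2 y.2 x) ?_ (by fun_prop)
    exact cp_eq (by fun_prop) (by fun_prop)

/-- pairs of data -/
abbrev D2 : Type := ((ℕ × ℕ) × (ℕ × ℕ)) × ((ℕ × ℕ) × (ℕ × ℕ))

theorem isoA_cp : ComputablePred fun z : D2 => IsoA z.1 z.2 := by
  unfold IsoA
  refine cp_and (cp_eq (by fun_prop) (by fun_prop)) (cp_and (cp_eq (by fun_prop) (by fun_prop)) ?_)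
  refine cp_ex (p := fun (z : D2) c => ∃ d, d < z.1.2.1 ^ z.1.2.1 ∧
    (∀ i < z.1.1.1, ∀ j < z.1.1.1, dg z.1.1.1 c i = dg z.1.1.1 c j → i = j) ∧
    (∀ i < z.1.2.1, ∀ j < z.1.2.1, dg z.1.2.1 d i = dg z.1.2.1 d j → i = j) ∧
    ∀ i < z.1.1.1, ∀ x < z.1.2.1,
      dg z.1.2.1 d (ml z.1.2 i x) = ml z.2.2 (dg z.1.1.1 c i) (dg z.1.2.1 d x)) ?_ (by fun_prop)
  refine cp_ex (p := fun (y : D2 × ℕ) d =>
    (∀ i < y.1.1.1.1, ∀ j < y.1.1.1.1, dg y.1.1.1.1 y.2 i = dg y.1.1.1.1 y.2 j → i = j) ∧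
    (∀ i < y.1.1.2.1, ∀ j < y.1.1.2.1, dg y.1.1.2.1 d i = dg y.1.1.2.1 d j → i = j) ∧
    ∀ i < y.1.1.1.1, ∀ x < y.1.1.2.1,
      dg y.1.1.2.1 d (ml y.1.1.2 i x) = ml y.1.2.2 (dg y.1.1.1.1 y.2 i) (dg y.1.1.2.1 d x)) ?_
    (by fun_prop)
  refine cp_and ?_ (cp_and ?_ ?_)
  · refine cp_all_lt (p := fun (y : (D2 × ℕ) × ℕ) i => ∀ j < y.1.1.1.1.1,
      dg y.1.1.1.1.1 y.1.2 i = dg y.1.1.1.1.1 y.1.2 j → i = j) ?_ (by fun_prop)
    refine cp_all_lt (p := fun (y : ((D2 × ℕ) × ℕ) × ℕ) j =>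
      dg y.1.1.1.1.1.1 y.1.1.2 y.2 = dg y.1.1.1.1.1.1 y.1.1.2 j → y.2 = j) ?_ (by fun_prop)
    exact cp_imp (cp_eq (by fun_prop) (by fun_prop)) (cp_eq (by fun_prop) (by fun_prop))
  · refine cp_all_lt (p := fun (y : (D2 × ℕ) × ℕ) i => ∀ j < y.1.1.1.2.1,
      dg y.1.1.1.2.1 y.2 i = dg y.1.1.1.2.1 y.2 j → i = j) ?_ (by fun_prop)
    refine cp_all_lt (p := fun (y : ((D2 × ℕ) × ℕ) × ℕ) j =>
      dg y.1.1.1.1.2.1 y.1.2 y.2 = dg y.1.1.1.1.2.1 y.1.2 j → y.2 = j) ?_ (by fun_prop)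
    exact cp_imp (cp_eq (by fun_prop) (by fun_prop)) (cp_eq (by fun_prop) (by fun_prop))
  · refine cp_all_lt (p := fun (y : (D2 × ℕ) × ℕ) i => ∀ x < y.1.1.1.2.1,
      dg y.1.1.1.2.1 y.2 (ml y.1.1.1.2 i x) =
        ml y.1.1.2.2 (dg y.1.1.1.1.1 y.1.2 i) (dg y.1.1.1.2.1 y.2 x)) ?_ (by fun_prop)
    refine cp_all_lt (p := fun (y : ((D2 × ℕ) × ℕ) × ℕ) x =>
      dg y.1.1.1.1.2.1 y.1.2 (ml y.1.1.1.1.2 y.2 x) =
        ml y.1.1.1.2.2 (dg y.1.1.1.1.1.1 y.1.1.2 y.2) (dg y.1.1.1.1.2.1 y.1.2 x)) ?_ (by fun_prop)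
    exact cp_eq (by fun_prop) (by fun_prop)

end Pool.Agent.U670.WP
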