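import Pool.Agent.U670.WP.Wr
import Pool.Agent.U181.IP.FinC

set_option autoImplicit false
set_option linter.unusedSectionVars false

/-!
# Codes for wreath products
-/

namespace Pool.Agent.U670.WP

open SemidirectProduct Pool.Agent.Q223.IS Pool.Agent.Q32.DP Pool.Agent.U181.IP Pool.Agent.U181.IP.FinT
  Pool.Agent.Q32.DP.PROD2

/-- new index of the generator `j` in the copy `x` -/
def sg (m T x j : ℕ) : ℕ := if j < m then x * m + j else T + j

/-- the code of the wreath product: `k` code of the group, `t` multiplication table, `s` action -/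
def code (k : Pres) (t s : ℕ × ℕ) : Pres :=
  (s.1 * k.1 + t.1,
    (List.range s.1).flatMap (fun x => k.2.map fun w => mp (sg k.1 (s.1 * k.1 + t.1) x) w) ++
    ((List.range s.1).flatMap (fun x => (List.range s.1).flatMap fun y =>
      (List.range k.1).flatMap fun i => (List.range k.1).map fun j =>
        if x = y then [] else cmw [(x * k.1 + i, true)] [(y * k.1 + j, true)]) ++
    ((K t).2.map (fun w => mp (fun i => s.1 * k.1 + i) w) ++
    (List.range t.1).flatMap (fun q => (List.range s.1).flatMap fun x =>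
      (List.range k.1).map fun j =>
        [(s.1 * k.1 + q, true), (x * k.1 + j, true), (s.1 * k.1 + q, false),
          (ml s q x * k.1 + j, false)]))))

theorem mem_code {k : Pres} {t s : ℕ × ℕ} {w : Wd} : w ∈ (code k t s).2 ↔
    (∃ x < s.1, ∃ u ∈ k.2, w = mp (sg k.1 (s.1 * k.1 + t.1) x) u) ∨
    (∃ x < s.1, ∃ y < s.1, ∃ i < k.1, ∃ j < k.1,
      w = if x = y then [] else cmw [(x * k.1 + i, true)] [(y * k.1 + j, true)]) ∨
    (∃ u ∈ (K t).2, w = mp (fun i => s.1 * k.1 + i) u) ∨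
    (∃ q < t.1, ∃ x < s.1, ∃ j < k.1, w =
      [(s.1 * k.1 + q, true), (x * k.1 + j, true), (s.1 * k.1 + q, false),
          (ml s q x * k.1 + j, false)]) := by
  unfold code
  simp only [List.mem_append, List.mem_flatMap, List.mem_map, List.mem_range, eq_comm (a := w)]

/-- the parameters -/
abbrev Z : Type := Pres × (ℕ × ℕ) × (ℕ × ℕ)

section

variable {α : Type} [Primcodable α] {z : α → Z}

theorem zm (h : Primrec z) : Primrec fun a => (z a).1.1 := Primrec.fst.comp (Primrec.fst.comp h)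

theorem zr (h : Primrec z) : Primrec fun a => (z a).1.2 := Primrec.snd.comp (Primrec.fst.comp h)

theorem zN (h : Primrec z) : Primrec fun a => (z a).2.1.1 :=
  Primrec.fst.comp (Primrec.fst.comp (Primrec.snd.comp h))

theorem zM (h : Primrec z) : Primrec fun a => (z a).2.2.1 :=
  Primrec.fst.comp (Primrec.snd.comp (Primrec.snd.comp h))

theorem zMm (h : Primrec z) : Primrec fun a => (z a).2.2.1 * (z a).1.1 :=
  Primrec.nat_mul.comp (zM h) (zm h)

theorem sg_pr {m T x j : α → ℕ} (hm : Primrec m) (hT : Primrec T) (hx : Primrec x)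
    (hj : Primrec j) : Primrec fun a => sg (m a) (T a) (x a) (j a) :=
  Primrec.ite (Primrec.nat_lt.comp hj hm)
    (Primrec.nat_add.comp (Primrec.nat_mul.comp hx hm) hj) (Primrec.nat_add.comp hT hj)

end

theorem r1_pr : Primrec fun z : Z => (List.range z.2.2.1).flatMap
    (fun x => z.1.2.map fun w => mp (sg z.1.1 (z.2.2.1 * z.1.1 + z.2.1.1) x) w) := by
  refine Primrec.list_flatMap (f := fun z : Z => List.range z.2.2.1)
    (g := fun (z : Z) x => z.1.2.map fun w => mp (sg z.1.1 (z.2.2.1 * z.1.1 + z.2.1.1) x) w)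
    (Primrec.list_range.comp (zM Primrec.id)) ?_
  refine Primrec.list_map (f := fun y : Z × ℕ => y.1.1.2)
    (g := fun (y : Z × ℕ) w => mp (sg y.1.1.1 (y.1.2.2.1 * y.1.1.1 + y.1.2.1.1) y.2) w)
    (zr Primrec.fst) ?_
  refine mp_pr (σ := fun (u : (Z × ℕ) × Wd) j =>
    sg u.1.1.1.1 (u.1.1.2.2.1 * u.1.1.1.1 + u.1.1.2.1.1) u.1.2 j) ?_ Primrec.snd
  have hz : Primrec fun v : ((Z × ℕ) × Wd) × ℕ => v.1.1.1 :=
    Primrec.fst.comp (Primrec.fst.comp Primrec.fst)
  exact sg_pr (zm hz) (Primrec.nat_add.comp (zMm hz) (zN hz))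
    (Primrec.snd.comp (Primrec.fst.comp Primrec.fst)) Primrec.snd

theorem r2_pr : Primrec fun z : Z => (List.range z.2.2.1).flatMap (fun x =>
    (List.range z.2.2.1).flatMap fun y => (List.range z.1.1).flatMap fun i =>
      (List.range z.1.1).map fun j =>
        if x = y then [] else cmw [(x * z.1.1 + i, true)] [(y * z.1.1 + j, true)]) := by
  refine Primrec.list_flatMap (f := fun z : Z => List.range z.2.2.1)
    (g := fun (z : Z) x => (List.range z.2.2.1).flatMap fun y => (List.range z.1.1).flatMap fun i =>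
      (List.range z.1.1).map fun j =>
        if x = y then [] else cmw [(x * z.1.1 + i, true)] [(y * z.1.1 + j, true)])
    (Primrec.list_range.comp (zM Primrec.id)) ?_
  refine Primrec.list_flatMap (f := fun a : Z × ℕ => List.range a.1.2.2.1)
    (g := fun (a : Z × ℕ) y => (List.range a.1.1.1).flatMap fun i =>
      (List.range a.1.1.1).map fun j =>
        if a.2 = y then [] else cmw [(a.2 * a.1.1.1 + i, true)] [(y * a.1.1.1 + j, true)])
    (Primrec.list_range.comp (zM Primrec.fst)) ?_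
  refine Primrec.list_flatMap (f := fun b : (Z × ℕ) × ℕ => List.range b.1.1.1.1)
    (g := fun (b : (Z × ℕ) × ℕ) i => (List.range b.1.1.1.1).map fun j =>
        if b.1.2 = b.2 then [] else
          cmw [(b.1.2 * b.1.1.1.1 + i, true)] [(b.2 * b.1.1.1.1 + j, true)])
    (Primrec.list_range.comp (zm (Primrec.fst.comp Primrec.fst))) ?_
  refine Primrec.list_map (f := fun c : ((Z × ℕ) × ℕ) × ℕ => List.range c.1.1.1.1.1)
    (g := fun (c : ((Z × ℕ) × ℕ) × ℕ) j => if c.1.1.2 = c.1.2 then [] else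
          cmw [(c.1.1.2 * c.1.1.1.1.1 + c.2, true)] [(c.1.2 * c.1.1.1.1.1 + j, true)])
    (Primrec.list_range.comp (zm (Primrec.fst.comp (Primrec.fst.comp Primrec.fst)))) ?_
  have hz : Primrec fun d : (((Z × ℕ) × ℕ) × ℕ) × ℕ => d.1.1.1.1 :=
    Primrec.fst.comp (Primrec.fst.comp (Primrec.fst.comp Primrec.fst))
  have hx : Primrec fun d : (((Z × ℕ) × ℕ) × ℕ) × ℕ => d.1.1.1.2 :=
    Primrec.snd.comp (Primrec.fst.comp (Primrec.fst.comp Primrec.fst))
  have hy : Primrec fun d : (((Z × ℕ) × ℕ) × ℕ) × ℕ => d.1.1.2 :=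
    Primrec.snd.comp (Primrec.fst.comp Primrec.fst)
  have hi : Primrec fun d : (((Z × ℕ) × ℕ) × ℕ) × ℕ => d.1.2 := Primrec.snd.comp Primrec.fst
  exact Primrec.ite (Primrec.eq.comp hx hy) (Primrec.const [])
    (cmw_pr (lt_pr (Primrec.nat_add.comp (Primrec.nat_mul.comp hx (zm hz)) hi))
      (lt_pr (Primrec.nat_add.comp (Primrec.nat_mul.comp hy (zm hz)) Primrec.snd)))

theorem r3_pr : Primrec fun z : Z => (K z.2.1).2.map (fun w => mp (fun i => z.2.2.1 * z.1.1 + i) w) := by
  refine Primrec.list_map (f := fun z : Z => (K z.2.1).2)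
    (g := fun (z : Z) w => mp (fun i => z.2.2.1 * z.1.1 + i) w)
    (Primrec.snd.comp (FinC.K_pr.comp (Primrec.fst.comp Primrec.snd))) ?_
  refine mp_pr (σ := fun (u : Z × Wd) i => u.1.2.2.1 * u.1.1.1 + i) ?_ Primrec.snd
  exact Primrec.nat_add.comp (zMm (Primrec.fst.comp Primrec.fst)) Primrec.snd

theorem r4_pr : Primrec fun z : Z => (List.range z.2.1.1).flatMap (fun q =>
    (List.range z.2.2.1).flatMap fun x => (List.range z.1.1).map fun j =>
        [(z.2.2.1 * z.1.1 + q, true), (x * z.1.1 + j, true), (z.2.2.1 * z.1.1 + q, false),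
          (ml z.2.2 q x * z.1.1 + j, false)]) := by
  refine Primrec.list_flatMap (f := fun z : Z => List.range z.2.1.1)
    (g := fun (z : Z) q => (List.range z.2.2.1).flatMap fun x => (List.range z.1.1).map fun j =>
        [(z.2.2.1 * z.1.1 + q, true), (x * z.1.1 + j, true), (z.2.2.1 * z.1.1 + q, false),
          (ml z.2.2 q x * z.1.1 + j, false)])
    (Primrec.list_range.comp (zN Primrec.id)) ?_
  refine Primrec.list_flatMap (f := fun a : Z × ℕ => List.range a.1.2.2.1)
    (g := fun (a : Z × ℕ) x => (List.range a.1.1.1).map fun j =>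
        [(a.1.2.2.1 * a.1.1.1 + a.2, true), (x * a.1.1.1 + j, true),
          (a.1.2.2.1 * a.1.1.1 + a.2, false), (ml a.1.2.2 a.2 x * a.1.1.1 + j, false)])
    (Primrec.list_range.comp (zM Primrec.fst)) ?_
  refine Primrec.list_map (f := fun b : (Z × ℕ) × ℕ => List.range b.1.1.1.1)
    (g := fun (b : (Z × ℕ) × ℕ) j =>
        [(b.1.1.2.2.1 * b.1.1.1.1 + b.1.2, true), (b.2 * b.1.1.1.1 + j, true),
          (b.1.1.2.2.1 * b.1.1.1.1 + b.1.2, false),
          (ml b.1.1.2.2 b.1.2 b.2 * b.1.1.1.1 + j, false)])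
    (Primrec.list_range.comp (zm (Primrec.fst.comp Primrec.fst))) ?_
  have hz : Primrec fun d : ((Z × ℕ) × ℕ) × ℕ => d.1.1.1 :=
    Primrec.fst.comp (Primrec.fst.comp Primrec.fst)
  have hq : Primrec fun d : ((Z × ℕ) × ℕ) × ℕ => d.1.1.2 :=
    Primrec.snd.comp (Primrec.fst.comp Primrec.fst)
  have hx : Primrec fun d : ((Z × ℕ) × ℕ) × ℕ => d.1.2 := Primrec.snd.comp Primrec.fst
  have h1 : Primrec fun d : ((Z × ℕ) × ℕ) × ℕ => d.1.1.1.2.2.1 * d.1.1.1.1.1 + d.1.1.2 :=
    Primrec.nat_add.comp (zMm hz) hq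
  have h2 : Primrec fun d : ((Z × ℕ) × ℕ) × ℕ => d.1.2 * d.1.1.1.1.1 + d.2 :=
    Primrec.nat_add.comp (Primrec.nat_mul.comp hx (zm hz)) Primrec.snd
  have h3 : Primrec fun d : ((Z × ℕ) × ℕ) × ℕ => ml d.1.1.1.2.2 d.1.1.2 d.1.2 * d.1.1.1.1.1 + d.2 :=
    Primrec.nat_add.comp (Primrec.nat_mul.comp (FinC.ml_pr (Primrec.snd.comp (Primrec.snd.comp hz))
      hq hx) (zm hz)) Primrec.snd
  exact Primrec.list_cons.comp (Primrec.pair h1 (Primrec.const true))
    (Primrec.list_cons.comp (Primrec.pair h2 (Primrec.const true))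
      (Primrec.list_cons.comp (Primrec.pair h1 (Primrec.const false))
        (Primrec.list_cons.comp (Primrec.pair h3 (Primrec.const false)) (Primrec.const []))))

theorem code_pr : Primrec fun z : Z => code z.1 z.2.1 z.2.2 := by
  unfold code
  refine Primrec.pair (Primrec.nat_add.comp (zMm Primrec.id) (zN Primrec.id)) ?_
  exact Primrec.list_append.comp r1_pr (Primrec.list_append.comp r2_pr
    (Primrec.list_append.comp r3_pr r4_pr))

end Pool.Agent.U670.WP
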