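import Pool.Agent.U670.WP.Uniq

set_option autoImplicit false
set_option linter.unusedSectionVars false

/-!
# Permutational wreath products with finite groups
-/

namespace Pool.Agent.U670.WP

open SemidirectProduct

/-- the permutational wreath product -/
abbrev Wr (G X Q : Type) [Group G] [Group Q] [MulAction Q X] : Type :=
  (X → G) ⋊[(mulAutArrow : Q →* MulAut (X → G))] Q

/-- the two permutation groups are the same -/
def PIso (Q X R Y : Type) [Group Q] [MulAction Q X] [Group R] [MulAction R Y] : Prop :=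
  ∃ (θ : Q ≃ R) (σ : X ≃ Y), ∀ (q : Q) (x : X), σ (q • x) = θ q • σ x

section

variable {G X Q H Y R : Type} [Group G] [Group Q] [MulAction Q X] [Group H] [Group R]
  [MulAction R Y] [DecidableEq X] [DecidableEq Y]

theorem act_single (q : Q) (x : X) (g : G) :
    (mulAutArrow q : MulAut (X → G)) (Pi.mulSingle x g) = Pi.mulSingle (q • x) g := by
  funext z
  show (Pi.mulSingle x g : X → G) (q⁻¹ • z) = _
  by_cases hz : z = q • x
  · subst hz
    rw [inv_smul_smul, Pi.mulSingle_eq_same, Pi.mulSingle_eq_same]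
  · rw [Pi.mulSingle_eq_of_ne (M := fun _ => G) hz, Pi.mulSingle_eq_of_ne (M := fun _ => G)]
    intro h
    apply hz
    rw [← h, smul_inv_smul]

theorem conj_single (q : Q) (x : X) (g : G) : (inr q : Wr G X Q) * inl (Pi.mulSingle x g) =
    inl (Pi.mulSingle (q • x) g) * inr q := by
  rw [← act_single, inl_aut, map_inv, inv_mul_cancel_right]

theorem fam_inl (hG : Irr G) [Finite Q] [FaithfulSMul Q X] :
    Fam (inl : (X → G) →* Wr G X Q) := by
  refine ⟨inl_injective, ?_, ?_⟩
  · rw [range_inl_eq_ker_rightHom]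
    exact Subgroup.finiteIndex_ker _
  · intro x w hw
    obtain ⟨f, q⟩ := w
    have key : ∀ y, y ≠ x → ∃ E : Subgroup G, E.FiniteIndex ∧
        ∀ g ∈ E, f * Pi.mulSingle (q • y) g = Pi.mulSingle y g * f := by
      intro y hy
      obtain ⟨E, hE, h⟩ := hw y hy
      refine ⟨E, hE, fun g hg => ?_⟩
      have h1 := h g hg
      rw [mk_eq_inl_mul_inr, mul_assoc, conj_single, ← mul_assoc, ← mul_assoc] at h1
      have h2 := mul_right_cancel h1
      rw [← map_mul, ← map_mul] at h2
      exact inl_injective h2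
    have h1 : ∀ y, y ≠ x → q • y = y := by
      intro y hy
      by_contra hne
      obtain ⟨E, hE, h⟩ := key y hy
      obtain ⟨g, hg, hg1⟩ := hG.ne hE
      apply hg1
      have h2 := congrFun (h g hg) y
      rw [Pi.mul_apply, Pi.mul_apply, Pi.mulSingle_eq_same,
        Pi.mulSingle_eq_of_ne (M := fun _ => G) (Ne.symm hne), mul_one] at h2
      exact right_eq_mul.1 h2
    have h2 : q • x = x := by
      by_contra hne
      have h3 := h1 (q • x) hne
      exact hne (MulAction.injective q h3)
    have h3 : q = 1 := by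
      apply FaithfulSMul.eq_of_smul_eq_smul (α := X)
      intro y
      rw [one_smul]
      by_cases hy : y = x
      · rw [hy, h2]
      · exact h1 y hy
    have h4 : ∀ y, y ≠ x → f y = 1 := by
      intro y hy
      obtain ⟨E, hE, h⟩ := key y hy
      apply hG.2.1
      refine Subgroup.finiteIndex_of_le (H := E) ?_
      intro g hg
      rw [Subgroup.mem_centralizer_iff]
      intro z hz
      have hz' : z = f y := hz
      subst hz'
      have h5 := congrFun (h g hg) y
      rw [h3, one_smul, Pi.mul_apply, Pi.mul_apply, Pi.mulSingle_eq_same] at h5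
      exact h5
    refine ⟨f x, ?_⟩
    subst h3
    refine SemidirectProduct.ext ?_ rfl
    funext y
    show f y = (Pi.mulSingle x (f x) : X → G) y
    by_cases hy : y = x
    · subst hy
      rw [Pi.mulSingle_eq_same]
    · rw [h4 y hy, Pi.mulSingle_eq_of_ne (M := fun _ => G) hy]

theorem Fam.equiv {W V : Type} [Group W] [Group V] {ι : (X → G) →* W} (h : Fam ι) (e : W ≃* V) :
    Fam (e.toMonoidHom.comp ι) := by
  refine ⟨e.injective.comp h.inj, ?_, ?_⟩
  · rw [MonoidHom.range_comp]
    refine ⟨?_⟩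
    rw [Subgroup.index_map_of_injective _ e.injective]
    have h1 : e.toMonoidHom.range.index = 1 := by
      rw [Subgroup.index_eq_one, MonoidHom.range_eq_top]
      exact e.surjective
    rw [h1, mul_one]
    exact h.fi.index_ne_zero
  · intro x w hw
    obtain ⟨g, hg⟩ := h.self x (e.symm w) (by
      intro y hy
      obtain ⟨E, hE, h1⟩ := hw y hy
      refine ⟨E, hE, fun g hg => ?_⟩
      apply e.injective
      rw [map_mul, map_mul, e.apply_symm_apply]
      exact h1 g hg)
    refine ⟨g, ?_⟩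
    show w = e (ι _)
    rw [← hg, e.apply_symm_apply]

/-- half of the structure of isomorphisms -/
theorem half [Fintype X] [Fintype Y] [Finite Q] [Finite R] [FaithfulSMul Q X] [FaithfulSMul R Y]
    (hG : Irr G) (hH : Irr H) (e : Wr G X Q ≃* Wr H Y R) :
    ∃ (θ : Q → R) (σ : X ≃ Y), Function.Injective θ ∧ (∀ q x, σ (q • x) = θ q • σ x) ∧
      (∀ x k, ∃ h, e (inl (Pi.mulSingle x k)) = inl (Pi.mulSingle (σ x) h)) ∧
      ∀ x h, ∃ k, (inl (Pi.mulSingle (σ x) h) : Wr H Y R) = e (inl (Pi.mulSingle x k)) := by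
  obtain ⟨σ, hσ⟩ := uniq ((fam_inl (Q := Q) (X := X) hG).equiv e) (fam_inl (Q := R) (X := Y) hH)
    hG hH
  have hσ1 : ∀ x k, ∃ h, e (inl (Pi.mulSingle x k)) = inl (Pi.mulSingle (σ x) h) :=
    fun x k => (hσ x).1 k
  have hσ2 : ∀ x h, ∃ k, (inl (Pi.mulSingle (σ x) h) : Wr H Y R) =
      e (inl (Pi.mulSingle x k)) := fun x h => (hσ x).2 h
  have hθ : ∀ q x, σ (q • x) = (e (inr q)).right • σ x := by
    intro q x
    obtain ⟨k, hk⟩ := hG.1
    obtain ⟨h, hh⟩ := hσ1 x k
    obtain ⟨h2, hh2⟩ := hσ1 (q • x) k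
    have e1 : e (inr q) * inl (Pi.mulSingle (σ x) h) =
        inl (Pi.mulSingle (σ (q • x)) h2) * e (inr q) := by
      rw [← hh, ← hh2, ← map_mul, ← map_mul, conj_single]
    have hne : h ≠ 1 := by
      rintro rfl
      rw [Pi.mulSingle_one, map_one, ← map_one e] at hh
      have h3 := inl_injective ((e.injective hh).trans (map_one inl).symm)
      exact hk (by
        have h4 := congrFun h3 x
        rw [Pi.mulSingle_eq_same] at h4
        exact h4)
    by_contra hcon
    apply hne
    have e2 : (e (inr q) : Wr H Y R) = inl (e (inr q)).left * inr (e (inr q)).right :=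
      (inl_left_mul_inr_right _).symm
    rw [e2, mul_assoc, conj_single, ← mul_assoc, ← mul_assoc] at e1
    have e3 := mul_right_cancel e1
    rw [← map_mul, ← map_mul] at e3
    have e4 := congrFun (inl_injective e3) ((e (inr q)).right • σ x)
    rw [Pi.mul_apply, Pi.mul_apply, Pi.mulSingle_eq_same,
      Pi.mulSingle_eq_of_ne (M := fun _ => H) (Ne.symm hcon), one_mul] at e4
    exact mul_eq_left.1 e4
  refine ⟨fun q => (e (inr q)).right, σ, ?_, hθ, hσ1, hσ2⟩
  intro q q' hqq
  apply FaithfulSMul.eq_of_smul_eq_smul (α := X)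
  intro x
  apply σ.injective
  rw [hθ, hθ]
  have h5 : (e (inr q)).right = (e (inr q')).right := hqq
  rw [h5]

theorem key [Fintype X] [Fintype Y] [Nonempty X] [Finite Q] [Finite R] [FaithfulSMul Q X]
    [FaithfulSMul R Y] (hG : Irr G) (hH : Irr H) (e : Wr G X Q ≃* Wr H Y R) :
    Nonempty (G ≃* H) ∧ PIso Q X R Y := by
  obtain ⟨θ, σ, hi, hθ, h1, h2⟩ := half hG hH e
  obtain ⟨θ', -, hi', -⟩ := half hH hG e.symm
  constructor
  · obtain ⟨x⟩ := (inferInstance : Nonempty X)
    choose f hf using h1 x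
    have hf' : ∀ k, f k = (e (inl (Pi.mulSingle x k))).left (σ x) := by
      intro k
      rw [hf, left_inl, Pi.mulSingle_eq_same]
    let F : G →* H := MonoidHom.mk' f (by
      intro a b
      have h3 : (inl (Pi.mulSingle (σ x) (f (a * b))) : Wr H Y R) =
          inl (Pi.mulSingle (σ x) (f a * f b)) := by
        rw [← hf, Pi.mulSingle_mul, Pi.mulSingle_mul, map_mul, map_mul, map_mul, hf, hf]
      exact Pi.mulSingle_injective (M := fun _ => H) (σ x) (inl_injective h3))
    refine ⟨MulEquiv.ofBijective F ⟨?_, ?_⟩⟩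
    · intro a b hab
      have hab' : f a = f b := hab
      have h3 : e (inl (Pi.mulSingle x a)) = e (inl (Pi.mulSingle x b)) := by
        rw [hf, hf, hab']
      exact Pi.mulSingle_injective (M := fun _ => G) x (inl_injective (e.injective h3))
    · intro h
      obtain ⟨k, hk⟩ := h2 x h
      refine ⟨k, ?_⟩
      rw [hf] at hk
      exact (Pi.mulSingle_injective (M := fun _ => H) (σ x) (inl_injective hk)).symm
  · have hb : Function.Bijective θ := hi.bijective_of_nat_card_le (Nat.card_le_card_of_injective θ' hi')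
    exact ⟨Equiv.ofBijective θ hb, σ, hθ⟩

theorem conv [FaithfulSMul R Y] (ψ : G ≃* H) (h : PIso Q X R Y) :
    Nonempty (Wr G X Q ≃* Wr H Y R) := by
  obtain ⟨θ, σ, hs⟩ := h
  let θ' : Q ≃* R := MulEquiv.mk' θ (by
    intro a b
    apply FaithfulSMul.eq_of_smul_eq_smul (α := Y)
    intro y
    obtain ⟨x, rfl⟩ := σ.surjective y
    rw [← hs, mul_smul, mul_smul, hs, hs])
  refine ⟨SemidirectProduct.congr (MulEquiv.arrowCongr σ ψ) θ' ?_⟩
  intro q
  ext f y
  show ψ (f (q⁻¹ • σ.symm y)) = ψ (f (σ.symm ((θ' q)⁻¹ • y)))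
  congr 2
  rw [Equiv.eq_symm_apply, hs]
  have h1 : θ q⁻¹ = (θ' q)⁻¹ := map_inv θ' q
  rw [h1, σ.apply_symm_apply]

end

end Pool.Agent.U670.WP
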